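import Mathlib
import Pool.Agent.SPO.Final

set_option autoImplicit false

/-!
`Representable k N` is defined in `Pool/Agent/TwoSqPow/Defs.lean`.
-/

namespace Pool.Agent.Results.MP_112731_nt.AbsoluteConstant

open Pool.Agent.TwoSqPow Filter

open Classical in
/-- There is an absolute constant `C` such that almost all integers are sums of two squares and at
most `C` powers of `2`: for every `ε > 0` and all sufficiently large `X`, all but at most `ε X` of
the integers `1 ≤ N ≤ X` are `C`-representable. -/
theorem result : ∃ C : ℕ, ∀ ε : ℝ, 0 < ε → ∀ᶠ X : ℕ in atTop,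
    (((Finset.Icc 1 X).filter (fun N => ¬ Representable C N)).card : ℝ) ≤ ε * X :=
  Pool.Agent.SPO.density_one

end Pool.Agent.Results.MP_112731_nt.AbsoluteConstant
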