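import Mathlib
import Pool.Agent.TwoSqPow.LowerBound

set_option autoImplicit false

/-!
`Representable k N` is defined in `Pool/Agent/TwoSqPow/Defs.lean`.
-/

namespace Pool.Agent.Results.MP_112731_nt.ManyExceptions

open Pool.Agent.TwoSqPow Filter

open Classical in
/-- For all sufficiently large `X` at least `X exp(-(log X)^(9/10))` of the integers
`1 ≤ N ≤ X` are not the sum of two squares and at most two powers of `2`. -/
theorem result : ∀ᶠ X : ℕ in atTop, (X : ℝ) * Real.exp (-(Real.log X) ^ (9 / 10 : ℝ)) ≤
    ((Finset.Icc 1 X).filter (fun N => ¬ Representable 2 N)).card :=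
  lower_bound

end Pool.Agent.Results.MP_112731_nt.ManyExceptions
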